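import Pool.Agent.K3h53.UG.Stm2

/-! Two constants theorem on a rectangle; balls without zeros around real points. -/

set_option autoImplicit false

namespace Pool.Agent.K3h18.UG

open MvPolynomial Filter Topology Metric Set Pool.Agent.K3h53.UG

theorem t_TC : S_TC := by
  intro h A B hh hB hBA h1 h2 y hy0 hy1
  have hA : 0 < A := lt_of_lt_of_le hB hBA
  obtain ⟨K, hK⟩ : ∃ K, K = Real.log (A / B) := ⟨_, rfl⟩
  rw [← hK]
  have hK0 : 0 ≤ K := by
    rw [hK]
    exact Real.log_nonneg (by rw [le_div_iff₀ hB]; linarith)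
  have hKe : A * Real.exp (-K) = B := by
    rw [Real.exp_neg, hK, Real.exp_log (by positivity)]
    field_simp
  let g : ℂ → ℂ := fun t =>
    h t * Complex.exp (-((K / 3 : ℝ) : ℂ) * t ^ 2 + ((4 * K / 3 : ℝ) : ℂ) * Complex.I * t)
  have hg : ∀ t : ℂ, ‖g t‖ =
      ‖h t‖ * Real.exp (K / 3 * (t.im ^ 2 - t.re ^ 2) - 4 * K / 3 * t.im) := by
    intro t
    simp only [g, norm_mul, Complex.norm_exp]
    congr 2
    simp only [Complex.add_re, Complex.mul_re, Complex.neg_re, Complex.neg_im, Complex.ofReal_re,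
      Complex.ofReal_im, pow_two, Complex.mul_im, Complex.I_re, Complex.I_im]
    ring
  have hd : Differentiable ℂ g := by
    apply hh.mul
    fun_prop
  let U : Set ℂ := Ioo (-2 : ℝ) 2 ×ℂ Ioo (0 : ℝ) 1
  have hU : Bornology.IsBounded U := (isBounded_Ioo (-2 : ℝ) 2).reProdIm (isBounded_Ioo (0 : ℝ) 1)
  have hcl : closure U = Icc (-2 : ℝ) 2 ×ℂ Icc (0 : ℝ) 1 := by
    rw [Complex.closure_reProdIm, closure_Ioo (by norm_num), closure_Ioo (by norm_num)]
  have hexp : ∀ a : ℝ, a ≤ 0 → Real.exp a ≤ 1 := fun a ha => Real.exp_le_one_iff.mpr ha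
  have hfr : ∀ z ∈ frontier U, ‖g z‖ ≤ B := by
    intro z hz
    have hz1 : z ∈ closure U := frontier_subset_closure hz
    rw [hcl, Complex.mem_reProdIm] at hz1
    obtain ⟨⟨hx1, hx2⟩, hy1, hy2⟩ := hz1
    have habs : |z.re| ≤ 2 := abs_le.mpr ⟨by linarith, hx2⟩
    rw [Complex.frontier_reProdIm, closure_Ioo (by norm_num), closure_Ioo (by norm_num),
      frontier_Ioo (by norm_num), frontier_Ioo (by norm_num)] at hz
    rw [hg]
    have hup := h1 z habs hy1 hy2
    have hn := norm_nonneg (h z)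
    rcases hz with hz | hz
    · -- bottom or top
      rw [Complex.mem_reProdIm] at hz
      rcases hz.2 with h0 | h0
      · -- bottom
        have hzr : z = ((z.re : ℝ) : ℂ) := by
          apply Complex.ext
          · simp
          · simp [h0]
        have hb := h2 z.re habs
        rw [← hzr] at hb
        rw [h0]
        calc ‖h z‖ * Real.exp (K / 3 * (0 ^ 2 - z.re ^ 2) - 4 * K / 3 * 0) ≤ B * 1 := by
              apply mul_le_mul hb _ (Real.exp_pos _).le hB.le
              apply hexp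
              nlinarith [mul_nonneg hK0 (sq_nonneg z.re)]
          _ = B := mul_one B
      · -- top
        rw [Set.mem_singleton_iff] at h0
        rw [h0]
        calc ‖h z‖ * Real.exp (K / 3 * (1 ^ 2 - z.re ^ 2) - 4 * K / 3 * 1) ≤
            A * Real.exp (-K) := by
              apply mul_le_mul hup _ (Real.exp_pos _).le hA.le
              apply Real.exp_le_exp.mpr
              nlinarith [mul_nonneg hK0 (sq_nonneg z.re)]
          _ = B := hKe
    · rw [Complex.mem_reProdIm] at hz
      have hsq : z.re ^ 2 = 4 := by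
        rcases hz.1 with h0 | h0
        · rw [h0]
          norm_num
        · rw [Set.mem_singleton_iff] at h0
          rw [h0]
          norm_num
      rw [hsq]
      calc ‖h z‖ * Real.exp (K / 3 * (z.im ^ 2 - 4) - 4 * K / 3 * z.im) ≤
          A * Real.exp (-K) := by
            apply mul_le_mul hup _ (Real.exp_pos _).le hA.le
            apply Real.exp_le_exp.mpr
            have h3 : z.im ^ 2 ≤ 1 := by nlinarith
            nlinarith [mul_nonneg hK0 hy1, mul_nonneg hK0 (sub_nonneg.mpr h3)]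
        _ = B := hKe
  have hz : ((y : ℂ) * Complex.I) ∈ closure U := by
    rw [hcl, Complex.mem_reProdIm]
    simp only [Complex.mul_re, Complex.ofReal_re, Complex.I_re, mul_zero, Complex.ofReal_im,
      Complex.I_im, mul_one, sub_self, Complex.mul_im, add_zero]
    exact ⟨⟨by norm_num, by norm_num⟩, hy0, hy1⟩
  have key := Complex.norm_le_of_forall_mem_frontier_norm_le hU hd.diffContOnCl hfr hz
  rw [hg] at key
  simp only [Complex.mul_re, Complex.ofReal_re, Complex.I_re, mul_zero, Complex.ofReal_im,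
      Complex.I_im, mul_one, sub_self, Complex.mul_im, add_zero] at key
  have h4 : ‖h (y * Complex.I)‖ ≤
      B * Real.exp (-(K / 3 * (y ^ 2 - 0 ^ 2) - 4 * K / 3 * y)) := by
    rw [Real.exp_neg, ← div_eq_mul_inv, le_div_iff₀ (Real.exp_pos _)]
    exact key
  refine h4.trans ?_
  apply mul_le_mul_of_nonneg_left _ hB.le
  apply Real.exp_le_exp.mpr
  nlinarith [mul_nonneg hK0 (sq_nonneg y)]

theorem exp_sixth : Real.exp (1 / 6) ≤ 6 / 5 := by
  by_contra hcon
  push Not at hcon
  have h1 : (6 / 5 : ℝ) ^ 6 < Real.exp (1 / 6) ^ 6 := pow_lt_pow_left₀ hcon (by norm_num) (by norm_num)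
  rw [← Real.exp_nat_mul] at h1
  have h2 : ((6 : ℕ) : ℝ) * (1 / 6) = 1 := by norm_num
  rw [h2] at h1
  have h3 := Real.exp_one_lt_d9
  norm_num at h1
  linarith

/-- real points -/
noncomputable def cx {s : ℕ} (x : Fin s → ℝ) : Fin s → ℂ := fun i => (x i : ℂ)

theorem cx_norm_le {s : ℕ} (x : Fin s → ℝ) : ‖cx x‖ ≤ ‖x‖ :=
  (pi_norm_le_iff_of_nonneg (norm_nonneg _)).mpr fun i => by
    simpa [cx] using norm_le_pi_norm x i

theorem t_ZF : S_ZF := by
  intro s
  refine ⟨1 / (64 * ((s : ℝ) + 2)), (s : ℝ) + 2, by positivity, by positivity, ?_⟩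
  intro K h hK hh hup x₀ hx₀ hlow
  have hK0 : 0 < K := by linarith
  have hs0 : (0 : ℝ) ≤ s := Nat.cast_nonneg s
  let E : (Fin s → ℂ) → ℂ := fun ξ => ∑ i, (ξ i - (x₀ i : ℂ)) ^ 2
  let G : (Fin s → ℂ) → ℂ := fun ξ => h ξ * Complex.exp (-(K : ℂ) * E ξ)
  have hE : Differentiable ℂ E := by
    apply Differentiable.fun_sum
    intro i _
    fun_prop
  have hG : Differentiable ℂ G := by
    apply hh.mul
    fun_prop
  have hEre : ∀ ξ, (E ξ).re = ∑ i, (((ξ i).re - x₀ i) ^ 2 - (ξ i).im ^ 2) := by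
    intro ξ
    simp only [E, Complex.re_sum, pow_two, Complex.mul_re, Complex.sub_re, Complex.sub_im,
      Complex.ofReal_re, Complex.ofReal_im, sub_zero]
  have hGn : ∀ ξ, ‖G ξ‖ = ‖h ξ‖ * Real.exp (-K * (E ξ).re) := by
    intro ξ
    simp only [G, norm_mul, Complex.norm_exp]
    congr 2
    simp [Complex.mul_re]
  have hElow : ∀ ξ, (∀ i, |(ξ i).im| ≤ 1) → -(s : ℝ) ≤ (E ξ).re := by
    intro ξ hξ
    rw [hEre]
    have : -(s : ℝ) = ∑ _i : Fin s, (-1 : ℝ) := by simp
    rw [this]
    refine Finset.sum_le_sum fun i _ => ?_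
    have h1 := hξ i
    have h2 : (ξ i).im ^ 2 ≤ 1 := by
      rw [← sq_abs]
      nlinarith [abs_nonneg (ξ i).im]
    nlinarith [sq_nonneg ((ξ i).re - x₀ i)]
  -- the maximum
  have hcont : ContinuousOn (fun x : Fin s → ℝ => ‖G (cx x)‖) (closedBall x₀ 5) := by
    apply Continuous.continuousOn
    apply Continuous.norm
    apply hG.continuous.comp
    unfold cx
    fun_prop
  obtain ⟨x₁, hx₁, hmax⟩ := (isCompact_closedBall x₀ (5 : ℝ)).exists_isMaxOn
    ⟨x₀, mem_closedBall_self (by norm_num)⟩ hcont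
  have hmax' : ∀ x : Fin s → ℝ, ‖x - x₀‖ ≤ 5 → ‖G (cx x)‖ ≤ ‖G (cx x₁)‖ := fun x hx =>
    hmax (by rwa [mem_closedBall, dist_eq_norm])
  have hGx0 : ‖G (cx x₀)‖ = ‖h (cx x₀)‖ := by
    rw [hGn, hEre]
    simp [cx]
  obtain ⟨B, hBd⟩ : ∃ B, B = ‖G (cx x₁)‖ := ⟨_, rfl⟩
  have hB1 : Real.exp (-K) ≤ B := by
    rw [hBd]
    refine le_trans ?_ (hmax' x₀ (by simp))
    rw [hGx0]
    exact hlow
  have hB0 : 0 < B := lt_of_lt_of_le (Real.exp_pos _) hB1
  have hx1 : ‖x₁ - x₀‖ < 2 := by
    by_contra hcon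
    have hex : ∃ i, 2 ≤ |x₁ i - x₀ i| := by
      by_contra hno
      push Not at hno
      exact hcon ((pi_norm_lt_iff (by norm_num)).mpr fun i => by
        rw [Real.norm_eq_abs]
        exact hno i)
    obtain ⟨i, hi⟩ := hex
    have h1 : (4 : ℝ) ≤ (E (cx x₁)).re := by
      rw [hEre]
      have h2 : (4 : ℝ) ≤ ((cx x₁ i).re - x₀ i) ^ 2 - (cx x₁ i).im ^ 2 := by
        simp only [cx, Complex.ofReal_re, Complex.ofReal_im]
        rw [← sq_abs]
        nlinarith
      refine h2.trans (Finset.single_le_sum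
        (f := fun i => ((cx x₁ i).re - x₀ i) ^ 2 - (cx x₁ i).im ^ 2) (fun j _ => ?_)
        (Finset.mem_univ i))
      simp only [cx, Complex.ofReal_re, Complex.ofReal_im]
      nlinarith [sq_nonneg (x₁ j - x₀ j)]
    have h3 : ‖cx x₁‖ ≤ 10 := by
      refine (cx_norm_le x₁).trans ?_
      have h4 : ‖x₁‖ ≤ ‖x₁ - x₀‖ + ‖x₀‖ := by
        simpa using norm_add_le (x₁ - x₀) x₀
      rw [mem_closedBall, dist_eq_norm] at hx₁
      linarith
    have h5 : B ≤ Real.exp K * Real.exp (-K * 4) := by
      rw [hBd, hGn]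
      apply mul_le_mul (hup _ h3) _ (Real.exp_pos _).le (Real.exp_pos _).le
      apply Real.exp_le_exp.mpr
      nlinarith
    rw [← Real.exp_add] at h5
    have h6 := Real.exp_le_exp.mp (hB1.trans h5)
    nlinarith
  have hx1n : ‖x₁‖ ≤ 5 := by
    have h4 : ‖x₁‖ ≤ ‖x₁ - x₀‖ + ‖x₀‖ := by
      simpa using norm_add_le (x₁ - x₀) x₀
    linarith
  refine ⟨x₁, hx1n, ?_⟩
  -- the upper bound near `x₁`
  obtain ⟨r, hr⟩ : ∃ r, r = 1 / (8 * ((s : ℝ) + 2)) / K := ⟨_, rfl⟩
  have hr0 : 0 < r := by rw [hr]; positivity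
  have hr1 : r ≤ 1 / 2 := by
    rw [hr, div_div, div_le_div_iff₀ (by positivity) (by norm_num)]
    nlinarith
  have hA : ∀ ξ : Fin s → ℂ, ‖ξ - cx x₁‖ ≤ r → ‖G ξ‖ ≤ 6 / 5 * B := by
    intro ξ hξ
    have hcoord : ∀ i, ‖ξ i - (x₁ i : ℂ)‖ ≤ r := fun i => (norm_le_pi_norm (ξ - cx x₁) i).trans hξ
    let α : Fin s → ℝ := fun i => (ξ i).re - x₁ i
    let β : Fin s → ℝ := fun i => (ξ i).im
    have hα : ‖α‖ ≤ r := by
      refine (pi_norm_le_iff_of_nonneg hr0.le).mpr fun i => ?_
      have h1 := Complex.abs_re_le_norm (ξ i - (x₁ i : ℂ))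
      rw [Complex.sub_re, Complex.ofReal_re] at h1
      exact h1.trans (hcoord i)
    have hβ : ‖β‖ ≤ r := by
      refine (pi_norm_le_iff_of_nonneg hr0.le).mpr fun i => ?_
      have h1 := Complex.abs_im_le_norm (ξ i - (x₁ i : ℂ))
      rw [Complex.sub_im, Complex.ofReal_im, sub_zero] at h1
      exact h1.trans (hcoord i)
    have hdist : ∀ v : Fin s → ℝ, ‖v‖ ≤ 2 → ‖G (cx (x₁ + α + v))‖ ≤ B := by
      intro v hv
      rw [hBd]
      apply hmax'
      have h1 : x₁ + α + v - x₀ = (x₁ - x₀) + α + v := by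
        abel
      rw [h1]
      have h2 := norm_add_le ((x₁ - x₀) + α) v
      have h3 := norm_add_le (x₁ - x₀) α
      linarith
    by_cases hb : β = 0
    · have h1 : ξ = cx (x₁ + α + 0) := by
        funext i
        apply Complex.ext
        · simp [cx, α]
        · simpa [cx] using congrFun hb i
      rw [h1]
      have := hdist 0 (by simp)
      linarith
    · have hb0 : 0 < ‖β‖ := norm_pos_iff.mpr hb
      let u : Fin s → ℝ := ‖β‖⁻¹ • β
      have hu : ‖u‖ ≤ 1 := by
        simp only [u]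
        rw [norm_smul, norm_inv, norm_norm, inv_mul_cancel₀ hb0.ne']
      have hui : ∀ i, |u i| ≤ 1 := fun i => (norm_le_pi_norm u i).trans hu
      let f : ℂ → ℂ := fun t => G (fun i => ((x₁ + α) i : ℂ) + t * (u i : ℂ))
      have hf : Differentiable ℂ f := by
        apply hG.comp
        rw [differentiable_pi]
        intro i
        fun_prop
      have hAB : B ≤ Real.exp (K * (s + 1)) := by
        rw [hBd, hGn]
        have h1 : ‖h (cx x₁)‖ ≤ Real.exp K := hup _ ((cx_norm_le x₁).trans (by linarith))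
        have h2 : Real.exp (-K * (E (cx x₁)).re) ≤ Real.exp (K * s) := by
          apply Real.exp_le_exp.mpr
          have := hElow (cx x₁) (fun i => by simp [cx])
          nlinarith
        calc ‖h (cx x₁)‖ * Real.exp (-K * (E (cx x₁)).re) ≤ Real.exp K * Real.exp (K * s) :=
              mul_le_mul h1 h2 (Real.exp_pos _).le (Real.exp_pos _).le
          _ = Real.exp (K * (s + 1)) := by
              rw [← Real.exp_add]
              congr 1
              ring
      have htc := t_TC f (Real.exp (K * (s + 1))) B hf hB0 hAB ?_ ?_ ‖β‖ hb0.le (by linarith)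
      · have h1 : (fun i => ((x₁ + α) i : ℂ) + (‖β‖ * Complex.I) * (u i : ℂ)) = ξ := by
          funext i
          have h2 : (‖β‖ : ℂ) * (u i : ℂ) = ((β i : ℝ) : ℂ) := by
            simp only [u, Pi.smul_apply, smul_eq_mul]
            push_cast
            rw [← mul_assoc, mul_inv_cancel₀ (by exact_mod_cast hb0.ne'), one_mul]
          rw [mul_right_comm, h2]
          apply Complex.ext
          · simp [α]
          · simp [β]
        have h3 : f (‖β‖ * Complex.I) = G ξ := by
          simp only [f]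
          rw [h1]
        rw [h3] at htc
        refine htc.trans ?_
        rw [mul_comm (6 / 5 : ℝ) B]
        apply mul_le_mul_of_nonneg_left _ hB0.le
        refine le_trans ?_ exp_sixth
        apply Real.exp_le_exp.mpr
        have h4 : Real.log (Real.exp (K * (s + 1)) / B) ≤ K * (s + 2) := by
          rw [Real.log_div (Real.exp_pos _).ne' hB0.ne', Real.log_exp]
          have h5 : -K ≤ Real.log B := by
            rw [Real.le_log_iff_exp_le hB0]
            exact hB1
          linarith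
        have h6 : 4 / 3 * ‖β‖ * Real.log (Real.exp (K * (s + 1)) / B) ≤
            4 / 3 * r * (K * (s + 2)) := by
          have h7 : 0 ≤ K * ((s : ℝ) + 2) := by positivity
          calc 4 / 3 * ‖β‖ * Real.log (Real.exp (K * (s + 1)) / B) ≤
              4 / 3 * ‖β‖ * (K * (s + 2)) := mul_le_mul_of_nonneg_left h4 (by positivity)
            _ ≤ 4 / 3 * r * (K * (s + 2)) := by
                apply mul_le_mul_of_nonneg_right _ h7
                linarith
        refine h6.trans (le_of_eq ?_)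
        rw [hr]
        have : (s : ℝ) + 2 ≠ 0 := by positivity
        field_simp
        norm_num
      · intro t ht1 ht2 ht3
        have hnt : ‖t‖ ≤ 3 := by
          refine (Complex.norm_le_abs_re_add_abs_im t).trans ?_
          rw [abs_of_nonneg ht2]
          linarith
        have hpt : ‖fun i => ((x₁ + α) i : ℂ) + t * (u i : ℂ)‖ ≤ 10 := by
          refine (pi_norm_le_iff_of_nonneg (by norm_num)).mpr fun i => ?_
          have h1 : ‖((x₁ i : ℝ) : ℂ)‖ ≤ 5 := by
            rw [Complex.norm_real]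
            exact (norm_le_pi_norm x₁ i).trans hx1n
          have h2 : ‖((α i : ℝ) : ℂ)‖ ≤ 1 / 2 := by
            rw [Complex.norm_real]
            exact (norm_le_pi_norm α i).trans (hα.trans hr1)
          have h3 : ‖t * (u i : ℂ)‖ ≤ 3 := by
            rw [norm_mul, Complex.norm_real, Real.norm_eq_abs]
            nlinarith [hui i, norm_nonneg t, abs_nonneg (u i)]
          have h4 : ((x₁ + α) i : ℂ) = (x₁ i : ℂ) + (α i : ℂ) := by
            rw [Pi.add_apply]
            push_cast
            rfl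
          rw [h4]
          have h5 := norm_add_le ((x₁ i : ℂ) + (α i : ℂ)) (t * (u i : ℂ))
          have h6 := norm_add_le (x₁ i : ℂ) (α i : ℂ)
          linarith
        have h2 : Real.exp (-K * (E (fun i => ((x₁ + α) i : ℂ) + t * (u i : ℂ))).re) ≤
            Real.exp (K * s) := by
          apply Real.exp_le_exp.mpr
          have := hElow (fun i => ((x₁ + α) i : ℂ) + t * (u i : ℂ)) (fun i => by
            simp only [Complex.add_im, Complex.ofReal_im, Complex.mul_im, Complex.ofReal_re,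
              mul_zero, zero_add]
            rw [abs_mul, abs_of_nonneg ht2]
            nlinarith [hui i, abs_nonneg (u i)])
          nlinarith
        change ‖G (fun i => ((x₁ + α) i : ℂ) + t * (u i : ℂ))‖ ≤ _
        rw [hGn]
        calc _ ≤ Real.exp K * Real.exp (K * s) :=
              mul_le_mul (hup _ hpt) h2 (Real.exp_pos _).le (Real.exp_pos _).le
          _ = Real.exp (K * (s + 1)) := by
              rw [← Real.exp_add]
              congr 1
              ring
      · intro x hx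
        have h1 : f x = G (cx (x₁ + α + x • u)) := by
          simp only [f]
          congr 1
          funext i
          simp [cx]
        rw [h1]
        apply hdist
        rw [norm_smul, Real.norm_eq_abs]
        nlinarith [norm_nonneg u, abs_nonneg x]
  -- Schwarz
  intro ξ hξ
  have hcc : ‖ξ - cx x₁‖ ≤ r / 8 := by
    refine hξ.trans (le_of_eq ?_)
    rw [hr]
    field_simp
    norm_num
  have hGx1 : G (cx x₁) ≠ 0 := by
    rw [← norm_pos_iff, ← hBd]
    exact hB0
  let φ : (Fin s → ℂ) → ℂ := fun ξ => G ξ / G (cx x₁)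
  have hφ1 : φ (cx x₁) = 1 := div_self hGx1
  have hmaps : MapsTo φ (ball (cx x₁) r) (closedBall (φ (cx x₁)) (11 / 5)) := by
    intro z hz
    rw [mem_ball, dist_eq_norm] at hz
    rw [mem_closedBall, dist_eq_norm, hφ1]
    have h1 : ‖φ z‖ ≤ 6 / 5 := by
      simp only [φ]
      rw [norm_div, ← hBd, div_le_iff₀ hB0]
      exact hA z hz.le
    have h2 := norm_sub_le (φ z) 1
    rw [norm_one] at h2
    linarith
  have hz : ξ ∈ ball (cx x₁) r := by
    rw [mem_ball, dist_eq_norm]
    linarith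
  have hφd : Differentiable ℂ φ := by
    have h0 : φ = fun z => G z * (G (cx x₁))⁻¹ := funext fun z => div_eq_mul_inv _ _
    rw [h0]
    exact hG.mul_const _
  have hsch := Complex.dist_le_div_mul_dist_of_mapsTo_ball hφd.differentiableOn hmaps hz
  rw [hφ1, dist_eq_norm, dist_eq_norm] at hsch
  have h1 : ‖φ ξ - 1‖ ≤ 1 / 2 := by
    refine hsch.trans ?_
    calc 11 / 5 / r * ‖ξ - cx x₁‖ ≤ 11 / 5 / r * (r / 8) :=
          mul_le_mul_of_nonneg_left hcc (by positivity)
      _ ≤ 1 / 2 := by
          field_simp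
          norm_num
  have h2 : 1 / 2 ≤ ‖φ ξ‖ := by
    have h3 := norm_sub_norm_le (1 : ℂ) (1 - φ ξ)
    rw [sub_sub_cancel, norm_one, norm_sub_rev] at h3
    linarith
  have h3 : B / 2 ≤ ‖G ξ‖ := by
    simp only [φ] at h2
    rw [norm_div, ← hBd, le_div_iff₀ hB0] at h2
    linarith
  have h4 : -(s : ℝ) ≤ (E ξ).re := by
    apply hElow
    intro i
    have h5 := Complex.abs_im_le_norm (ξ i - (x₁ i : ℂ))
    rw [Complex.sub_im, Complex.ofReal_im, sub_zero] at h5
    have h6 : ‖ξ i - (x₁ i : ℂ)‖ ≤ r / 8 := (norm_le_pi_norm (ξ - cx x₁) i).trans hcc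
    linarith
  rw [hGn] at h3
  have h5 : ‖h ξ‖ * Real.exp (-K * (E ξ).re) ≤ ‖h ξ‖ * Real.exp (K * s) := by
    apply mul_le_mul_of_nonneg_left _ (norm_nonneg _)
    apply Real.exp_le_exp.mpr
    nlinarith
  have h6 : Real.exp (-K) * Real.exp (-K) ≤ B / 2 := by
    have h7 : Real.exp (-K) ≤ 1 / 2 := by
      have h8 : Real.exp (-K) ≤ Real.exp (-1) := Real.exp_le_exp.mpr (by linarith)
      have h9 : Real.exp (-1) ≤ 1 / 2 := by
        rw [Real.exp_neg, one_div]
        apply inv_anti₀ (by norm_num)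
        have := Real.exp_one_gt_d9
        linarith
      linarith
    calc Real.exp (-K) * Real.exp (-K) ≤ B * (1 / 2) :=
          mul_le_mul hB1 h7 (Real.exp_pos _).le hB0.le
      _ = B / 2 := by ring
  have h7 : Real.exp (-K) * Real.exp (-K) ≤ ‖h ξ‖ * Real.exp (K * s) := h6.trans (h3.trans h5)
  rw [← Real.exp_add] at h7
  have h8 : Real.exp (-(((s : ℝ) + 2) * K)) = Real.exp (-K + -K) * Real.exp (-(K * s)) := by
    rw [← Real.exp_add]
    congr 1
    ring
  rw [h8, Real.exp_neg (K * s), ← div_eq_mul_inv, div_le_iff₀ (Real.exp_pos _)]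
  exact h7

end Pool.Agent.K3h18.UG
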